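import Pool.Agent.H69.LQ.Lib
import Pool.Agent.H69.LQ.Targets1

/-!
# K2: smoothness of the field
-/

set_option autoImplicit false

open MeasureTheory Metric Set
open scoped ENNReal Convolution
open Pool.Agent.H85.LK (E adm lam Ann)
open Pool.Agent.H69.LQ

namespace Pool.Agent.H58.LQ1

theorem kn_loc (hK1 : T_K1) (N : ℕ) (hN : 2 ≤ N) (i : Fin N) :
    LocallyIntegrable (kn i : E N → ℝ) volume := by
  obtain ⟨hb, hm, hI⟩ := hK1 N hN
  intro x
  have hR : 0 < ‖x‖ + 1 := by positivity
  refine ⟨ball 0 (‖x‖ + 1), isOpen_ball.mem_nhds ?_, ?_⟩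
  · rw [mem_ball_zero_iff]
    linarith
  · obtain ⟨h1, _⟩ := hI (‖x‖ + 1) hR
    refine Integrable.mono' (h1.const_mul (ar N)⁻¹) (hm i).aestronglyMeasurable ?_
    exact Filter.Eventually.of_forall fun z => by
      rw [Real.norm_eq_abs]
      exact hb i z

theorem KV_eq {N : ℕ} (f : E N → ℝ) (i : Fin N) :
    KV f i = ((kn i : E N → ℝ) ⋆[ContinuousLinearMap.mul ℝ ℝ, volume] f) := by
  funext x
  rfl

theorem pf_K2 (hK1 : T_K1) : T_K2 := by
  intro N f i hN hf hc
  have hk := kn_loc hK1 N hN i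
  refine ⟨?_, fun j x => ⟨?_, ?_⟩⟩
  · rw [KV_eq]
    exact hc.contDiff_convolution_right (ContinuousLinearMap.mul ℝ ℝ) hk hf
  · have hcj : HasCompactSupport (fun y => pd j f y) := by
      have h := hc.fderiv (𝕜 := ℝ)
      exact h.comp_left (g := fun T : E N →L[ℝ] ℝ => T (EuclideanSpace.single j 1)) rfl
    have hcont : Continuous (fun y => pd j f y) := by
      have h := hf.continuous_fderiv (by simp)
      exact h.clm_apply continuous_const
    exact hcj.convolutionExists_right (ContinuousLinearMap.mul ℝ ℝ) hk hcont x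
  · have h1 := hc.hasFDerivAt_convolution_right (ContinuousLinearMap.mul ℝ ℝ) hk
      (hf.of_le (by simp)) x
    have h2 := convolution_precompR_apply (ContinuousLinearMap.mul ℝ ℝ) hk (hc.fderiv (𝕜 := ℝ))
      (hf.continuous_fderiv (by simp)) x (EuclideanSpace.single j 1)
    have h3 : pd j (KV f i) x =
        (((kn i : E N → ℝ) ⋆[(ContinuousLinearMap.mul ℝ ℝ).precompR (E N), volume] fderiv ℝ f) x)
          (EuclideanSpace.single j 1) := by
      unfold pd
      rw [KV_eq, h1.fderiv]
    rw [h3, h2]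
    rfl

end Pool.Agent.H58.LQ1
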