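import Pool.Agent.H69.LQ.Lib
import Pool.Agent.H69.LQ.Targets1

/-!
# VA: the volume and the first exit
-/

set_option autoImplicit false

open MeasureTheory Metric Set
open scoped ENNReal
open Pool.Agent.H85.LK (E adm lam Ann)
open Pool.Agent.H69.LQ

namespace Pool.Agent.H58.LQ1

theorem int_pow_ind {N : ℕ} (hN : 2 ≤ N) {R : ℝ} (hR : 0 < R) :
    IntegrableOn (fun r : ℝ => r ^ (N - 1) * (Iio R).indicator (fun _ => (1 : ℝ)) r) (Ioi 0) ∧
    ∫ r in Ioi (0 : ℝ), r ^ (N - 1) * (Iio R).indicator (fun _ => (1 : ℝ)) r = R ^ N / N := by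
  have e : (fun r : ℝ => r ^ (N - 1) * (Iio R).indicator (fun _ => (1 : ℝ)) r) =
      (Iio R).indicator fun r : ℝ => r ^ (N - 1) := by
    funext r
    by_cases h : r ∈ Iio R
    · rw [indicator_of_mem h, indicator_of_mem h, mul_one]
    · rw [indicator_of_notMem h, indicator_of_notMem h, mul_zero]
  have hint : IntegrableOn (fun r : ℝ => r ^ (N - 1)) (Ioo 0 R) :=
    ((continuous_pow (N - 1)).integrableOn_Icc (a := 0) (b := R)).mono_set Ioo_subset_Icc_self
  rw [e]
  constructor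
  · unfold IntegrableOn
    rw [integrable_indicator_iff measurableSet_Iio]
    unfold IntegrableOn
    rw [Measure.restrict_restrict measurableSet_Iio, inter_comm]
    exact hint
  · rw [setIntegral_indicator measurableSet_Iio]
    have h1 : Ioi (0 : ℝ) ∩ Iio R = Ioo 0 R := rfl
    rw [h1, ← integral_Ioc_eq_integral_Ioo, ← intervalIntegral.integral_of_le hR.le,
      integral_pow]
    have h2 : N - 1 + 1 = N := by omega
    rw [h2, zero_pow (by omega), sub_zero]
    congr 1
    have h3 : ((N - 1 : ℕ) : ℝ) + 1 = N := by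
      exact_mod_cast congrArg (Nat.cast (R := ℝ)) h2
    exact h3

theorem pf_VA (hMP : T_MP) : T_VA := by
  intro N Ω a b R hN ha hab hΩ hfin' hEx
  obtain ⟨hprob, har, harN, hpol⟩ := hMP N hN
  have hN0 : (0 : ℝ) < N := by exact_mod_cast (by omega : 0 < N)
  have hR0 : ∀ θ, 0 < R θ := fun θ => ha.trans (hEx.lo θ)
  have hfin : volume Ω ≠ ∞ := hfin'
  -- indicator functions
  have hI1 : Integrable (Ω.indicator fun _ => (1 : ℝ)) (volume : Measure (E N)) := by
    rw [integrable_indicator_iff hΩ.measurableSet]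
    exact integrableOn_const hfin
  have hm2 : MeasurableSet (Ω \ ball (0 : E N) b) := hΩ.measurableSet.diff measurableSet_ball
  have hI2 : Integrable ((Ω \ ball (0 : E N) b).indicator fun _ => (1 : ℝ))
      (volume : Measure (E N)) := by
    rw [integrable_indicator_iff hm2]
    exact integrableOn_const (ne_top_of_le_ne_top hfin (measure_mono sdiff_subset))
  obtain ⟨i1, j1, v1⟩ := hpol _ hI1
  obtain ⟨i2, j2, v2⟩ := hpol _ hI2
  rw [integral_indicator_const _ hΩ.measurableSet, smul_eq_mul, mul_one] at v1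
  rw [integral_indicator_const _ hm2, smul_eq_mul, mul_one] at v2
  have hRN : BM fun θ => R θ ^ N :=
    ⟨hEx.meas.pow_const N, b ^ N, fun θ => by
      rw [abs_of_nonneg (pow_nonneg (hR0 θ).le N)]
      exact pow_le_pow_left₀ (hR0 θ).le (hEx.hi θ) N⟩
  -- comparison on a ray
  have hray : ∀ᵐ θ : Sp N ∂(mS N),
      R θ ^ N / N + (∫ r in Ioi (0 : ℝ), r ^ (N - 1) *
        (Ω \ ball (0 : E N) b).indicator (fun _ => (1 : ℝ)) (r • (θ : E N))) ≤
      ∫ r in Ioi (0 : ℝ), r ^ (N - 1) * Ω.indicator (fun _ => (1 : ℝ)) (r • (θ : E N)) := by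
    filter_upwards [i1, i2] with θ h1 h2
    obtain ⟨h3, h4⟩ := int_pow_ind hN (hR0 θ)
    rw [← h4, ← integral_add h3 h2]
    refine setIntegral_mono_on (h3.add h2) h1 measurableSet_Ioi fun r hr => ?_
    have hr0 : (0 : ℝ) < r := hr
    rw [← mul_add]
    refine mul_le_mul_of_nonneg_left ?_ (pow_nonneg hr0.le _)
    by_cases h : r < R θ
    · have hin : r • (θ : E N) ∈ Ω := hEx.ins θ r hr0.le h
      have hnot : r • (θ : E N) ∉ Ω \ ball (0 : E N) b := by
        rintro ⟨-, h5⟩
        apply h5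
        rw [mem_ball_zero_iff, norm_smul_sp, abs_of_pos hr0]
        exact h.trans_le (hEx.hi θ)
      rw [indicator_of_mem (show r ∈ Iio (R θ) from h), indicator_of_notMem hnot,
        indicator_of_mem hin, add_zero]
    · rw [indicator_of_notMem (show r ∉ Iio (R θ) from h), zero_add]
      exact indicator_le_indicator_of_subset sdiff_subset (fun _ => zero_le_one) _
  have hav : (av fun θ => R θ ^ N) / N + av (fun θ : Sp N => ∫ r in Ioi (0 : ℝ), r ^ (N - 1) *
        (Ω \ ball (0 : E N) b).indicator (fun _ => (1 : ℝ)) (r • (θ : E N))) ≤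
      av fun θ : Sp N => ∫ r in Ioi (0 : ℝ), r ^ (N - 1) *
        Ω.indicator (fun _ => (1 : ℝ)) (r • (θ : E N)) := by
    have h1 : (av fun θ => R θ ^ N) / N = ∫ θ, R θ ^ N / N ∂(mS N) := by
      unfold av
      rw [integral_div]
    rw [h1]
    unfold av
    rw [← integral_add (hRN.integrable.div_const _) j2]
    exact integral_mono_ae ((hRN.integrable.div_const _).add j2) j1 hray
  obtain ⟨A, hA⟩ : ∃ A, A = av fun θ => R θ ^ N := ⟨_, rfl⟩
  obtain ⟨X, hX⟩ : ∃ X, X = av fun θ : Sp N => ∫ r in Ioi (0 : ℝ), r ^ (N - 1) *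
        (Ω \ ball (0 : E N) b).indicator (fun _ => (1 : ℝ)) (r • (θ : E N)) := ⟨_, rfl⟩
  obtain ⟨Y, hY⟩ : ∃ Y, Y = av fun θ : Sp N => ∫ r in Ioi (0 : ℝ), r ^ (N - 1) *
        Ω.indicator (fun _ => (1 : ℝ)) (r • (θ : E N)) := ⟨_, rfl⟩
  rw [← hA, ← hX, ← hY] at hav
  rw [← hX] at v2
  rw [← hY] at v1
  rw [← hA]
  have hV : volume.real (ball (0 : E N) 1) * A = ar N * (A / N) := by
    rw [harN]
    field_simp
  have h2 : ar N * (A / N + X) ≤ ar N * Y := mul_le_mul_of_nonneg_left hav har.le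
  rw [v2, hV, v1]
  linarith

end Pool.Agent.H58.LQ1
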